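import Mathlib

namespace Pool.Agent.Lib.MP_84e76d_ag

open Polynomial Finset

/-- The nodal product at `j` has sign `(-1)^{number of nodes above j}`. -/
lemma sign_prod (S : Finset ℕ) (j : ℕ) :
    0 < (-1 : ℚ) ^ (#{i ∈ S | j < i}) * ∏ i ∈ S.erase j, ((j : ℚ) - i) := by
  classical
  have h1 : S.erase j = {i ∈ S | i < j} ∪ {i ∈ S | j < i} := by
    ext i
    simp only [mem_erase, mem_union, mem_filter]
    constructor
    · rintro ⟨h, hi⟩
      rcases lt_or_gt_of_ne h with h | h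
      · exact Or.inl ⟨hi, h⟩
      · exact Or.inr ⟨hi, h⟩
    · rintro (⟨hi, h⟩ | ⟨hi, h⟩)
      · exact ⟨h.ne, hi⟩
      · exact ⟨h.ne', hi⟩
  have h2 : Disjoint {i ∈ S | i < j} {i ∈ S | j < i} := by
    rw [Finset.disjoint_left]
    intro i hi hi'
    simp only [mem_filter] at hi hi'
    omega
  rw [h1, prod_union h2]
  have h3 : ∏ i ∈ {i ∈ S | j < i}, ((j : ℚ) - i) =
      (-1 : ℚ) ^ (#{i ∈ S | j < i}) * ∏ i ∈ {i ∈ S | j < i}, ((i : ℚ) - j) := by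
    rw [← prod_const, ← prod_mul_distrib]
    apply prod_congr rfl
    intro i _
    ring
  rw [h3]
  have h4 : 0 < ∏ i ∈ {i ∈ S | i < j}, ((j : ℚ) - i) := by
    apply prod_pos
    intro i hi
    simp only [mem_filter] at hi
    have : (i : ℚ) < j := by exact_mod_cast hi.2
    linarith
  have h5 : 0 < ∏ i ∈ {i ∈ S | j < i}, ((i : ℚ) - j) := by
    apply prod_pos
    intro i hi
    simp only [mem_filter] at hi
    have : (j : ℚ) < i := by exact_mod_cast hi.2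
    linarith
  have h6 : (-1 : ℚ) ^ (#{i ∈ S | j < i}) * (-1 : ℚ) ^ (#{i ∈ S | j < i}) = 1 := by
    rw [← pow_add, ← two_mul, pow_mul]; norm_num
  calc (0 : ℚ) < (∏ i ∈ {i ∈ S | i < j}, ((j : ℚ) - i)) * ∏ i ∈ {i ∈ S | j < i}, ((i : ℚ) - j) :=
        mul_pos h4 h5
    _ = _ := by
      rw [show (-1 : ℚ) ^ (#{i ∈ S | j < i}) * ((∏ i ∈ {i ∈ S | i < j}, ((j : ℚ) - i)) *
        ((-1 : ℚ) ^ (#{i ∈ S | j < i}) * ∏ i ∈ {i ∈ S | j < i}, ((i : ℚ) - j))) =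
        ((-1 : ℚ) ^ (#{i ∈ S | j < i}) * (-1 : ℚ) ^ (#{i ∈ S | j < i})) *
          ((∏ i ∈ {i ∈ S | i < j}, ((j : ℚ) - i)) * ∏ i ∈ {i ∈ S | j < i}, ((i : ℚ) - j)) by ring,
        h6, one_mul]

/-- If `p = ± q` with signs alternating along the nodes and `deg (p q) < #S - 1`, then `q`
vanishes on the nodes. -/
lemma alternating_zero (S : Finset ℕ) (p q : ℚ[X]) (σ : ℚ) (hσ : σ ≠ 0)
    (hdeg : (p * q).natDegree + 1 < #S)
    (h : ∀ j ∈ S, p.eval (j : ℚ) = σ * (-1 : ℚ) ^ (#{i ∈ S | j < i}) * q.eval (j : ℚ)) :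
    ∀ j ∈ S, q.eval (j : ℚ) = 0 := by
  classical
  have hinj : Set.InjOn (fun n : ℕ => (n : ℚ)) S := Nat.cast_injective.injOn
  have hlt : (p * q).degree < #S := by
    refine lt_of_le_of_lt degree_le_natDegree ?_
    exact_mod_cast (by omega : (p * q).natDegree < #S)
  have hc := Lagrange.coeff_eq_sum hinj hlt
  have h0 : (p * q).coeff (#S - 1) = 0 := by
    apply coeff_eq_zero_of_natDegree_lt
    omega
  rw [h0] at hc
  have hterm : ∀ i ∈ S, (p * q).eval ((i : ℚ)) / ∏ j ∈ S.erase i, ((i : ℚ) - j) =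
      σ * ((q.eval (i : ℚ)) ^ 2 /
        ((-1 : ℚ) ^ (#{k ∈ S | i < k}) * ∏ j ∈ S.erase i, ((i : ℚ) - j))) := by
    intro i hi
    rw [eval_mul, h i hi]
    have hs := sign_prod S i
    have hp : ∏ j ∈ S.erase i, ((i : ℚ) - j) ≠ 0 := by
      intro h0
      rw [h0] at hs
      simp at hs
    have hu : (-1 : ℚ) ^ (#{k ∈ S | i < k}) ≠ 0 := by positivity
    have h6 : (-1 : ℚ) ^ (#{k ∈ S | i < k}) * (-1 : ℚ) ^ (#{k ∈ S | i < k}) = 1 := by
      rw [← pow_add, ← two_mul, pow_mul]; norm_num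
    field_simp
    have h7 : ((-1 : ℚ) ^ (#{k ∈ S | i < k})) ^ 2 = 1 := by rw [sq]; exact h6
    rw [h7]
    ring
  have hsum : ∑ i ∈ S, ((q.eval (i : ℚ)) ^ 2 /
        ((-1 : ℚ) ^ (#{k ∈ S | i < k}) * ∏ j ∈ S.erase i, ((i : ℚ) - j))) = 0 := by
    have : σ * ∑ i ∈ S, ((q.eval (i : ℚ)) ^ 2 /
        ((-1 : ℚ) ^ (#{k ∈ S | i < k}) * ∏ j ∈ S.erase i, ((i : ℚ) - j))) = 0 := by
      rw [mul_sum, ← sum_congr rfl hterm]
      exact hc.symm
    exact (mul_eq_zero.mp this).resolve_left hσ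
  intro j hj
  have := (Finset.sum_eq_zero_iff_of_nonneg (fun i _ => div_nonneg (sq_nonneg _)
    (sign_prod S i).le)).mp hsum j hj
  rcases div_eq_zero_iff.mp this with h | h
  · exact pow_eq_zero_iff (two_ne_zero) |>.mp h
  · exact absurd h (sign_prod S j).ne'

end Pool.Agent.Lib.MP_84e76d_ag
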