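import Mathlib
import Pool.Agent.Lib.MP_84e76d_ag.Alt

namespace Pool.Agent.Lib.MP_84e76d_ag

open Polynomial Finset

/-- Injectivity of the dual interpolation problem. -/
lemma dual_injective (m1 m2 m3 m4 d : ℕ) (hd : 2 * d + 2 = m1 + m2 + m3 + m4)
    (h1 : m1 ≤ d + 1) (h2 : m2 ≤ d + 1) (hst : m3 + m4 ≤ m1 + m2)
    (h3 : 0 < m3) (h4 : 0 < m4) (hpar : Even (d + (m1 + m2)))
    (p q : ℚ[X]) (hp : p.degree < m3) (hq : q.degree < m4)
    (hu : ∀ j, m1 ≤ j → j ≤ d → p.eval (j : ℚ) + (-1) ^ j * q.eval (j : ℚ) = 0)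
    (hv : ∀ j, j + m2 ≤ d → -p.eval (j : ℚ) + (-1) ^ j * q.eval (j : ℚ) = 0) :
    p = 0 ∧ q = 0 := by
  classical
  set S : Finset ℕ := range (d + 1 - m2) ∪ Ico m1 (d + 1) with hS
  have hdisj : Disjoint (range (d + 1 - m2)) (Ico m1 (d + 1)) := by
    rw [Finset.disjoint_left]
    intro i hi hi'
    simp only [mem_range, mem_Ico] at hi hi'
    omega
  have hcard : #S = m3 + m4 := by
    rw [hS, card_union_of_disjoint hdisj, card_range, Nat.card_Ico]
    omega
  have hpn : p.natDegree < m3 := by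
    by_cases h : p = 0
    · simpa [h] using h3
    · exact (natDegree_lt_iff_degree_lt h).mpr hp
  have hqn : q.natDegree < m4 := by
    by_cases h : q = 0
    · simpa [h] using h4
    · exact (natDegree_lt_iff_degree_lt h).mpr hq
  have hdeg : (p * q).natDegree + 1 < #S := by
    have := natDegree_mul_le (p := p) (q := q)
    omega
  have hupper : ∀ j, m1 ≤ j → j ≤ d → {i ∈ S | j < i} = Ico (j + 1) (d + 1) := by
    intro j hj hj'
    ext i
    simp only [hS, mem_filter, mem_union, mem_range, mem_Ico]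
    omega
  have hlower : ∀ j, j + m2 ≤ d → {i ∈ S | j < i} =
      Ico (j + 1) (d + 1 - m2) ∪ Ico m1 (d + 1) := by
    intro j hj
    ext i
    simp only [hS, mem_filter, mem_union, mem_range, mem_Ico]
    omega
  have hlowercard : ∀ j, j + m2 ≤ d → #{i ∈ S | j < i} =
      (d - m2 - j) + (d + 1 - m1) := by
    intro j hj
    rw [hlower j hj, card_union_of_disjoint, Nat.card_Ico, Nat.card_Ico]
    · omega
    · rw [Finset.disjoint_left]
      intro i hi hi'
      simp only [mem_Ico] at hi hi'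
      omega
  have halt : ∀ j ∈ S, p.eval (j : ℚ) =
      (-(-1 : ℚ) ^ d) * (-1 : ℚ) ^ (#{i ∈ S | j < i}) * q.eval (j : ℚ) := by
    intro j hj
    simp only [hS, mem_union, mem_range, mem_Ico] at hj
    rcases hj with hj | hj
    · have hj' : j + m2 ≤ d := by omega
      rw [hlowercard j hj']
      have e := hv j hj'
      have hs : (-(-1 : ℚ) ^ d) * (-1 : ℚ) ^ ((d - m2 - j) + (d + 1 - m1)) = (-1 : ℚ) ^ j := by
        rw [show (-(-1 : ℚ) ^ d) = (-1 : ℚ) ^ (d + 1) by rw [pow_succ]; ring, ← pow_add]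
        apply neg_one_pow_congr
        constructor <;> intro h <;> rw [Nat.even_iff] at * <;> omega
      rw [hs]
      linarith
    · have hj' : j ≤ d := by omega
      rw [hupper j hj.1 hj', Nat.card_Ico]
      have e := hu j hj.1 hj'
      have hs : (-(-1 : ℚ) ^ d) * (-1 : ℚ) ^ (d + 1 - (j + 1)) = -(-1 : ℚ) ^ j := by
        have : (-1 : ℚ) ^ d * (-1 : ℚ) ^ (d + 1 - (j + 1)) = (-1 : ℚ) ^ j := by
          rw [← pow_add]
          apply neg_one_pow_congr
          constructor <;> intro h <;> rw [Nat.even_iff] at * <;> omega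
        rw [neg_mul, this]
      rw [hs]
      linarith
  have hσ : (-(-1 : ℚ) ^ d) ≠ 0 := by
    rw [neg_ne_zero]
    positivity
  have hq0 := alternating_zero S p q _ hσ hdeg halt
  have hp0 : ∀ j ∈ S, p.eval (j : ℚ) = 0 := by
    intro j hj
    rw [halt j hj, hq0 j hj, mul_zero]
  have hinj : Set.InjOn (fun n : ℕ => (n : ℚ)) S := Nat.cast_injective.injOn
  constructor
  · refine eq_zero_of_degree_lt_of_eval_index_eq_zero (v := fun n : ℕ => (n : ℚ)) S hinj ?_ hp0
    refine lt_of_lt_of_le hp ?_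
    rw [hcard]
    exact_mod_cast (by omega : m3 ≤ m3 + m4)
  · refine eq_zero_of_degree_lt_of_eval_index_eq_zero (v := fun n : ℕ => (n : ℚ)) S hinj ?_ hq0
    refine lt_of_lt_of_le hq ?_
    rw [hcard]
    exact_mod_cast (by omega : m4 ≤ m3 + m4)

/-- The dual interpolation map. -/
noncomputable def dualMap (m1 m2 m3 m4 d : ℕ) :
    (degreeLT ℚ m3 × degreeLT ℚ m4) →ₗ[ℚ]
      ((Fin (d + 1 - m1) → ℚ) × (Fin (d + 1 - m2) → ℚ)) where
  toFun pq := (fun i => (pq.1 : ℚ[X]).eval ((m1 + (i : ℕ) : ℕ) : ℚ) +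
      (-1) ^ (m1 + (i : ℕ)) * (pq.2 : ℚ[X]).eval ((m1 + (i : ℕ) : ℕ) : ℚ),
    fun i => -(pq.1 : ℚ[X]).eval ((i : ℕ) : ℚ) +
      (-1) ^ (i : ℕ) * (pq.2 : ℚ[X]).eval ((i : ℕ) : ℚ))
  map_add' x y := by
    ext i
    · simp; ring
    · simp; ring
  map_smul' c x := by
    ext i
    · simp; ring
    · simp; ring

lemma dualMap_surjective (m1 m2 m3 m4 d : ℕ) (hd : 2 * d + 2 = m1 + m2 + m3 + m4)
    (h1 : m1 ≤ d + 1) (h2 : m2 ≤ d + 1) (hst : m3 + m4 ≤ m1 + m2)
    (h3 : 0 < m3) (h4 : 0 < m4) (hpar : Even (d + (m1 + m2))) :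
    Function.Surjective (dualMap m1 m2 m3 m4 d) := by
  have e3 := degreeLTEquiv ℚ m3
  have e4 := degreeLTEquiv ℚ m4
  have : FiniteDimensional ℚ (degreeLT ℚ m3) := LinearEquiv.finiteDimensional e3.symm
  have : FiniteDimensional ℚ (degreeLT ℚ m4) := LinearEquiv.finiteDimensional e4.symm
  rw [← LinearMap.injective_iff_surjective_of_finrank_eq_finrank]
  · rw [injective_iff_map_eq_zero]
    rintro ⟨⟨p, hp⟩, ⟨q, hq⟩⟩ h
    have hu := congrArg Prod.fst h
    have hv := congrArg Prod.snd h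
    obtain ⟨hp0, hq0⟩ := dual_injective m1 m2 m3 m4 d hd h1 h2 hst h3 h4 hpar p q
      (mem_degreeLT.mp hp) (mem_degreeLT.mp hq)
      (by
        intro j hj hj'
        have := congrFun hu ⟨j - m1, by omega⟩
        simp only [dualMap, LinearMap.coe_mk, AddHom.coe_mk, Prod.fst_zero, Pi.zero_apply,
          show m1 + (j - m1) = j by omega] at this
        exact this)
      (by
        intro j hj
        have := congrFun hv ⟨j, by omega⟩
        simp only [dualMap, LinearMap.coe_mk, AddHom.coe_mk, Prod.snd_zero, Pi.zero_apply] at this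
        exact this)
    subst hp0 hq0
    rfl
  · rw [Module.finrank_prod, Module.finrank_prod, e3.finrank_eq, e4.finrank_eq]
    simp only [Module.finrank_fintype_fun_eq_card, Fintype.card_fin]
    omega

end Pool.Agent.Lib.MP_84e76d_ag
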