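import Mathlib
import Pool.Agent.Lib.MP_84e76d_ag.Inj

namespace Pool.Agent.Lib.MP_84e76d_ag

open Polynomial Finset

variable {K : Type*} [Field K]

lemma moment_zero (c : K) (k : ℕ) : ∀ (w : K[X]) (n : ℕ), w.natDegree < n →
    (X - C c) ^ (k + 1) ∣ w → ∑ j ∈ range n, w.coeff j * c ^ j * (j : K) ^ k = 0 := by
  induction k with
  | zero =>
    intro w n hn hw
    simp only [zero_add, pow_one, pow_zero, mul_one] at hw ⊢
    rw [← eval_eq_sum_range' hn]
    exact dvd_iff_isRoot.mp hw
  | succ k ih =>
    intro w n hn hw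
    have h1 : (X - C c) ^ (k + 1) ∣ X * derivative w := by
      apply Dvd.dvd.mul_left
      have := pow_sub_one_dvd_derivative_of_pow_dvd hw
      simpa using this
    have h2 : (X * derivative w).natDegree < n := by
      by_cases h : w.natDegree = 0
      · rw [natDegree_eq_zero.mp h |>.choose_spec.symm]
        simp only [derivative_C, mul_zero, natDegree_zero]
        omega
      · have := natDegree_mul_le (p := (X : K[X])) (q := derivative w)
        have h3 := natDegree_derivative_lt h
        have h4 : (X : K[X]).natDegree ≤ 1 := natDegree_X_le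
        omega
    have h3 := ih _ n h2 h1
    rw [← h3]
    apply sum_congr rfl
    intro j _
    have : (X * derivative w).coeff j = w.coeff j * (j : K) := by
      cases j with
      | zero => simp
      | succ j => rw [coeff_X_mul, coeff_derivative]; push_cast; ring
    rw [this, pow_succ]
    ring

lemma functional_zero (c : K) (m : ℕ) (w P : K[X]) (n : ℕ) (hn : w.natDegree < n)
    (hw : (X - C c) ^ m ∣ w) (hP : P.degree < m) :
    ∑ j ∈ range n, w.coeff j * c ^ j * P.eval (j : K) = 0 := by
  by_cases hP0 : P = 0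
  · simp [hP0]
  have hPn : P.natDegree < m := (natDegree_lt_iff_degree_lt hP0).mpr hP
  have h1 : ∀ j : ℕ, P.eval (j : K) = ∑ k ∈ range m, P.coeff k * (j : K) ^ k := by
    intro j
    exact eval_eq_sum_range' hPn _
  calc ∑ j ∈ range n, w.coeff j * c ^ j * P.eval (j : K)
      = ∑ j ∈ range n, ∑ k ∈ range m, P.coeff k * (w.coeff j * c ^ j * (j : K) ^ k) := by
        apply sum_congr rfl
        intro j _
        rw [h1, mul_sum]
        apply sum_congr rfl
        intro k _
        ring
    _ = ∑ k ∈ range m, P.coeff k * ∑ j ∈ range n, (w.coeff j * c ^ j * (j : K) ^ k) := by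
        rw [sum_comm]
        apply sum_congr rfl
        intro k _
        rw [mul_sum]
    _ = 0 := by
        apply sum_eq_zero
        intro k hk
        rw [moment_zero c k w n hn ((pow_dvd_pow _ (by simpa using hk)).trans hw), mul_zero]

theorem uni_zero [CharZero K] (m1 m2 m3 m4 d : ℕ) (hd : 2 * d + 2 = m1 + m2 + m3 + m4)
    (h1 : m1 ≤ d + 1) (h2 : m2 ≤ d + 1) (hst : m3 + m4 ≤ m1 + m2)
    (h3 : 0 < m3) (h4 : 0 < m4) (hpar : Even (d + (m1 + m2)))
    (u v : K[X]) (hu0 : u.natDegree ≤ d) (hu : X ^ m1 ∣ u) (hv0 : v.natDegree ≤ d)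
    (hv : ∀ j, d < j + m2 → v.coeff j = 0)
    (hm3 : (X - C 1) ^ m3 ∣ u - v) (hm4 : (X - C (-1)) ^ m4 ∣ u + v) : u = 0 ∧ v = 0 := by
  classical
  have hsurj := dualMap_surjective m1 m2 m3 m4 d hd h1 h2 hst h3 h4 hpar
  have hu' : ∀ j, j < m1 → u.coeff j = 0 := X_pow_dvd_iff.mp hu
  -- the pairing identity
  have key : ∀ x : degreeLT ℚ m3 × degreeLT ℚ m4,
      ∑ i : Fin (d + 1 - m1), u.coeff (m1 + i) * (((dualMap m1 m2 m3 m4 d x).1 i : ℚ) : K) +
      ∑ i : Fin (d + 1 - m2), v.coeff i * (((dualMap m1 m2 m3 m4 d x).2 i : ℚ) : K) = 0 := by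
    rintro ⟨⟨p, hp⟩, ⟨q, hq⟩⟩
    rw [mem_degreeLT] at hp hq
    set P := p.map (algebraMap ℚ K) with hPdef
    set Q := q.map (algebraMap ℚ K) with hQdef
    have hP : P.degree < m3 := lt_of_le_of_lt degree_map_le hp
    have hQ : Q.degree < m4 := lt_of_le_of_lt degree_map_le hq
    have hPe : ∀ j : ℕ, P.eval (j : K) = ((p.eval (j : ℚ) : ℚ) : K) := by
      intro j
      rw [hPdef, eval_natCast_map]
      simp
    have hQe : ∀ j : ℕ, Q.eval (j : K) = ((q.eval (j : ℚ) : ℚ) : K) := by
      intro j
      rw [hQdef, eval_natCast_map]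
      simp
    have s1 := functional_zero (1 : K) m3 (u - v) P (d + 1)
      (lt_of_le_of_lt (natDegree_sub_le _ _) (by
        have := max_le hu0 hv0; omega)) hm3 hP
    have s2 := functional_zero (-1 : K) m4 (u + v) Q (d + 1)
      (lt_of_le_of_lt (natDegree_add_le _ _) (by
        have := max_le hu0 hv0; omega)) hm4 hQ
    have s3 : ∑ j ∈ range (d + 1), u.coeff j * (P.eval (j : K) + (-1) ^ j * Q.eval (j : K)) +
        ∑ j ∈ range (d + 1), v.coeff j * (-P.eval (j : K) + (-1) ^ j * Q.eval (j : K)) = 0 := by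
      rw [← add_zero (0 : K)]
      nth_rewrite 1 [← s1]
      rw [← s2, ← sum_add_distrib, ← sum_add_distrib]
      apply sum_congr rfl
      intro j _
      rw [coeff_sub, coeff_add]
      ring
    have s4 : ∑ j ∈ range (d + 1), u.coeff j * (P.eval (j : K) + (-1) ^ j * Q.eval (j : K)) =
        ∑ i : Fin (d + 1 - m1), u.coeff (m1 + i) *
          (((dualMap m1 m2 m3 m4 d (⟨p, mem_degreeLT.mpr hp⟩, ⟨q, mem_degreeLT.mpr hq⟩)).1 i : ℚ)
            : K) := by
      have hsplit : d + 1 = m1 + (d + 1 - m1) := by omega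
      conv_lhs => rw [hsplit]
      rw [sum_range_add, sum_eq_zero (s := range m1), zero_add, ← Fin.sum_univ_eq_sum_range
        (fun i => u.coeff (m1 + i) * (P.eval ((m1 + i : ℕ) : K) +
          (-1) ^ (m1 + i) * Q.eval ((m1 + i : ℕ) : K))) (d + 1 - m1)]
      · apply sum_congr rfl
        intro i _
        rw [hPe, hQe]
        simp only [dualMap, LinearMap.coe_mk, AddHom.coe_mk]
        push_cast
        ring
      · intro j hj
        rw [hu' j (by simpa using hj), zero_mul]
    have s5 : ∑ j ∈ range (d + 1), v.coeff j * (-P.eval (j : K) + (-1) ^ j * Q.eval (j : K)) =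
        ∑ i : Fin (d + 1 - m2), v.coeff i *
          (((dualMap m1 m2 m3 m4 d (⟨p, mem_degreeLT.mpr hp⟩, ⟨q, mem_degreeLT.mpr hq⟩)).2 i : ℚ)
            : K) := by
      have hsplit : d + 1 = (d + 1 - m2) + m2 := by omega
      conv_lhs => rw [hsplit]
      rw [sum_range_add, sum_eq_zero (s := range m2), add_zero, ← Fin.sum_univ_eq_sum_range
        (fun i => v.coeff i * (-P.eval (i : K) +
          (-1) ^ i * Q.eval (i : K))) (d + 1 - m2)]
      · apply sum_congr rfl
        intro i _
        rw [hPe, hQe]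
        simp only [dualMap, LinearMap.coe_mk, AddHom.coe_mk]
        push_cast
        ring
      · intro j hj
        rw [hv _ (by simp at hj; omega), zero_mul]
    rw [s4, s5] at s3
    exact s3
  constructor
  · ext j
    rw [coeff_zero]
    by_cases hj : j < m1
    · exact hu' j hj
    by_cases hj' : d < j
    · exact coeff_eq_zero_of_natDegree_lt (lt_of_le_of_lt hu0 hj')
    obtain ⟨x, hx⟩ := hsurj (Pi.single ⟨j - m1, by omega⟩ 1, 0)
    have := key x
    rw [hx] at this
    simp only [Pi.zero_apply, Rat.cast_zero, mul_zero, sum_const_zero, add_zero] at this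
    rw [Finset.sum_eq_single ⟨j - m1, by omega⟩] at this
    · simpa [show m1 + (j - m1) = j by omega] using this
    · intro b _ hb
      rw [Pi.single_eq_of_ne hb]
      simp
    · intro h
      exact absurd (mem_univ _) h
  · ext j
    rw [coeff_zero]
    by_cases hj : d < j + m2
    · exact hv j hj
    obtain ⟨x, hx⟩ := hsurj (0, Pi.single ⟨j, by omega⟩ 1)
    have := key x
    rw [hx] at this
    simp only [Pi.zero_apply, Rat.cast_zero, mul_zero, sum_const_zero, zero_add] at this
    rw [Finset.sum_eq_single ⟨j, by omega⟩] at this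
    · simpa using this
    · intro b _ hb
      rw [Pi.single_eq_of_ne hb]
      simp
    · intro h
      exact absurd (mem_univ _) h

end Pool.Agent.Lib.MP_84e76d_ag
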