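import Mathlib
import Pool.Agent.Lib.MP_84e76d_ag.Uni

namespace Pool.Agent.Lib.MP_84e76d_ag

open MvPolynomial

variable {K : Type*} [Field K]

/-- `f ∂x + g ∂y` is logarithmic for `x^m1 y^m2 (x-y)^m3 (x+y)^m4`. -/
def InD (m1 m2 m3 m4 : ℕ) (f g : MvPolynomial (Fin 2) K) : Prop :=
  X 0 ^ m1 ∣ f ∧ X 1 ^ m2 ∣ g ∧ (X 0 - X 1) ^ m3 ∣ f - g ∧ (X 0 + X 1) ^ m4 ∣ f + g

lemma InD.mul {m1 m2 m3 m4 : ℕ} {f g : MvPolynomial (Fin 2) K} (h : InD m1 m2 m3 m4 f g)
    (a : MvPolynomial (Fin 2) K) : InD m1 m2 m3 m4 (a * f) (a * g) := by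
  obtain ⟨h1, h2, h3, h4⟩ := h
  refine ⟨h1.mul_left a, h2.mul_left a, ?_, ?_⟩
  · rw [← mul_sub]; exact h3.mul_left a
  · rw [← mul_add]; exact h4.mul_left a

lemma InD.add {m1 m2 m3 m4 : ℕ} {f g f' g' : MvPolynomial (Fin 2) K}
    (h : InD m1 m2 m3 m4 f g) (h' : InD m1 m2 m3 m4 f' g') :
    InD m1 m2 m3 m4 (f + f') (g + g') := by
  obtain ⟨h1, h2, h3, h4⟩ := h
  obtain ⟨h1', h2', h3', h4'⟩ := h'
  refine ⟨dvd_add h1 h1', dvd_add h2 h2', ?_, ?_⟩
  · rw [show f + f' - (g + g') = (f - g) + (f' - g') by ring]; exact dvd_add h3 h3'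
  · rw [show f + f' + (g + g') = (f + g) + (f' + g') by ring]; exact dvd_add h4 h4'

/-- Case `m3 + m4 ≤ m1 + m2` of the vanishing statement. -/
lemma low_zero_case1 [CharZero K] (m1 m2 m3 m4 d : ℕ) (hd : 2 * d + 2 = m1 + m2 + m3 + m4)
    (h1 : m1 ≤ d + 1) (h2 : m2 ≤ d + 1) (hst : m3 + m4 ≤ m1 + m2)
    (h3 : 0 < m3) (h4 : 0 < m4) (hpar : Even (d + (m1 + m2)))
    (f g : MvPolynomial (Fin 2) K) (hf : f.IsHomogeneous d) (hg : g.IsHomogeneous d)
    (h : InD m1 m2 m3 m4 f g) : f = 0 ∧ g = 0 := by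
  obtain ⟨hx, hy, hm, hp⟩ := h
  set φ : MvPolynomial (Fin 2) K →ₐ[K] Polynomial K := aeval ![Polynomial.X, 1] with hφ
  have hφ0 : φ (X 0) = Polynomial.X := by simp [hφ]
  have hφ1 : φ (X 1) = 1 := by simp [hφ]
  have hdeg : ∀ (F : MvPolynomial (Fin 2) K) (n : ℕ), F.totalDegree ≤ n → (φ F).natDegree ≤ n := by
    intro F n hF
    have := aeval_natDegree_le (m := n) (n := 1) F hF ![Polynomial.X, 1] (by
      intro i
      fin_cases i
      · simp
      · simp)
    simpa using this
  have key := uni_zero (K := K) m1 m2 m3 m4 d hd h1 h2 hst h3 h4 hpar (φ f) (φ g)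
    (hdeg f d hf.totalDegree_le)
    (by
      have := map_dvd φ hx
      rwa [map_pow, hφ0] at this)
    (hdeg g d hg.totalDegree_le)
    (by
      intro j hj
      by_cases hg0 : g = 0
      · simp [hg0]
      obtain ⟨G, hG⟩ := hy
      have hG0 : G ≠ 0 := by
        rintro rfl
        exact hg0 (by rw [hG, mul_zero])
      have hX0 : (X 1 : MvPolynomial (Fin 2) K) ^ m2 ≠ 0 := pow_ne_zero _ (X_ne_zero 1)
      have htd : g.totalDegree = m2 + G.totalDegree := by
        rw [hG, totalDegree_mul_of_isDomain hX0 hG0, totalDegree_X_pow]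
      rw [hg.totalDegree hg0] at htd
      have hφg : φ g = φ G := by
        rw [hG, map_mul, map_pow, hφ1, one_pow, one_mul]
      rw [hφg]
      apply Polynomial.coeff_eq_zero_of_natDegree_lt
      exact lt_of_le_of_lt (hdeg G _ le_rfl) (by omega))
    (by
      have := map_dvd φ hm
      rw [map_pow, map_sub, hφ0, hφ1, map_sub] at this
      simpa using this)
    (by
      have := map_dvd φ hp
      rw [map_pow, map_add, hφ0, hφ1, map_add] at this
      simpa using this)
  constructor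
  · rw [← Polynomial.homogenize_eq_of_isHomogeneous hf rfl]
    change (φ f).homogenize d = 0
    rw [key.1, Polynomial.homogenize_zero]
  · rw [← Polynomial.homogenize_eq_of_isHomogeneous hg rfl]
    change (φ g).homogenize d = 0
    rw [key.2, Polynomial.homogenize_zero]

/-- The vanishing statement in the even case. -/
lemma low_zero_even [CharZero K] (m1 m2 m3 m4 d : ℕ) (hd : 2 * d + 2 = m1 + m2 + m3 + m4)
    (b1 : m1 ≤ d + 1) (b2 : m2 ≤ d + 1) (b3 : m3 ≤ d + 1) (b4 : m4 ≤ d + 1)
    (h1 : 0 < m1) (h2 : 0 < m2) (h3 : 0 < m3) (h4 : 0 < m4) (hpar : Even (d + (m1 + m2)))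
    (f g : MvPolynomial (Fin 2) K) (hf : f.IsHomogeneous d) (hg : g.IsHomogeneous d)
    (h : InD m1 m2 m3 m4 f g) : f = 0 ∧ g = 0 := by
  by_cases hst : m3 + m4 ≤ m1 + m2
  · exact low_zero_case1 m1 m2 m3 m4 d hd b1 b2 hst h3 h4 hpar f g hf hg h
  · obtain ⟨hx, hy, hm, hp⟩ := h
    set ψ : MvPolynomial (Fin 2) K →ₐ[K] MvPolynomial (Fin 2) K :=
      aeval ![X 0 + X 1, X 1 - X 0] with hψ
    have hψ0 : ψ (X 0) = X 0 + X 1 := by simp [hψ]
    have hψ1 : ψ (X 1) = X 1 - X 0 := by simp [hψ]
    have hψh : ∀ F : MvPolynomial (Fin 2) K, F.IsHomogeneous d → (ψ F).IsHomogeneous d := by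
      intro F hF
      have := hF.aeval (n := 1) ![(X 0 + X 1 : MvPolynomial (Fin 2) K), X 1 - X 0] (by
        intro i
        fin_cases i
        · exact (isHomogeneous_X _ _).add (isHomogeneous_X _ _)
        · exact (isHomogeneous_X _ _).sub (isHomogeneous_X _ _))
      rw [one_mul] at this
      exact this
    have h2C : (C (2 : K) : MvPolynomial (Fin 2) K) = 2 := map_ofNat C 2
    have hu : IsUnit (2 : MvPolynomial (Fin 2) K) := by
      rw [← h2C]
      exact (IsUnit.mk0 (2 : K) two_ne_zero).map C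
    have key := low_zero_case1 (K := K) m3 m4 m2 m1 d (by omega) b3 b4 (by omega) h2 h1
      (by rw [Nat.even_iff] at *; omega) (ψ (f - g)) (ψ (f + g))
      (hψh _ (hf.sub hg)) (hψh _ (hf.add hg))
      (by
        refine ⟨?_, ?_, ?_, ?_⟩
        · have := map_dvd ψ hm
          rw [map_pow, map_sub, hψ0, hψ1,
            show (X 0 + X 1 - (X 1 - X 0) : MvPolynomial (Fin 2) K) = 2 * X 0 by ring,
            mul_pow] at this
          exact (dvd_mul_left _ _).trans this
        · have := map_dvd ψ hp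
          rw [map_pow, map_add, hψ0, hψ1,
            show (X 0 + X 1 + (X 1 - X 0) : MvPolynomial (Fin 2) K) = 2 * X 1 by ring,
            mul_pow] at this
          exact (dvd_mul_left _ _).trans this
        · have := map_dvd ψ hy
          rw [map_pow, hψ1] at this
          rw [← map_sub, show f - g - (f + g) = -2 * g by ring, map_mul]
          have hh : (X 0 - X 1 : MvPolynomial (Fin 2) K) ^ m2 ∣ (X 1 - X 0) ^ m2 := by
            rw [← neg_sub (X 0) (X 1), neg_pow (X 0 - X 1 : MvPolynomial (Fin 2) K)]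
            exact dvd_mul_left _ _
          exact (hh.trans this).mul_left _
        · have := map_dvd ψ hx
          rw [map_pow, hψ0] at this
          rw [← map_add, show f - g + (f + g) = 2 * f by ring, map_mul]
          exact this.mul_left _)
    have e1 : ψ f = 0 := by
      have : ψ (2 * f) = 0 := by
        rw [show 2 * f = (f - g) + (f + g) by ring, map_add, key.1, key.2, add_zero]
      rw [map_mul, map_ofNat] at this
      exact (hu.mul_right_eq_zero).mp this
    have e2 : ψ g = 0 := by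
      have : ψ (2 * g) = 0 := by
        rw [show 2 * g = (f + g) - (f - g) by ring, map_sub, key.1, key.2, sub_zero]
      rw [map_mul, map_ofNat] at this
      exact (hu.mul_right_eq_zero).mp this
    -- the inverse substitution
    set ρ : MvPolynomial (Fin 2) K →ₐ[K] MvPolynomial (Fin 2) K :=
      aeval ![C (1 / 2) * (X 0 - X 1), C (1 / 2) * (X 0 + X 1)] with hρ
    have hρψ : ∀ F, ρ (ψ F) = F := by
      intro F
      have : (ρ.comp ψ) = AlgHom.id K _ := by
        apply MvPolynomial.algHom_ext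
        intro i
        fin_cases i
        · simp only [Fin.zero_eta, AlgHom.coe_comp, Function.comp_apply, hψ0, map_add,
            AlgHom.coe_id, id_eq]
          simp only [hρ, aeval_X, Matrix.cons_val_zero, Matrix.cons_val_one]
          rw [← mul_add, show (X 0 - X 1 + (X 0 + X 1) : MvPolynomial (Fin 2) K) = C 2 * X 0 by
            rw [h2C]; ring, ← mul_assoc, ← C_mul]
          norm_num
        · simp only [Fin.mk_one, AlgHom.coe_comp, Function.comp_apply, hψ1, map_sub,
            AlgHom.coe_id, id_eq]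
          simp only [hρ, aeval_X, Matrix.cons_val_zero, Matrix.cons_val_one]
          rw [← mul_sub, show (X 0 + X 1 - (X 0 - X 1) : MvPolynomial (Fin 2) K) = C 2 * X 1 by
            rw [h2C]; ring, ← mul_assoc, ← C_mul]
          norm_num
      exact congrArg (fun h => h F) this
    exact ⟨by rw [← hρψ f, e1, map_zero], by rw [← hρψ g, e2, map_zero]⟩

end Pool.Agent.Lib.MP_84e76d_ag
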