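import Mathlib
import Pool.Agent.Lib.MP_84e76d_ag.Biv

namespace Pool.Agent.Lib.MP_84e76d_ag

open MvPolynomial

variable {K : Type*} [Field K]

/-- A factor of a homogeneous polynomial by a nonzero homogeneous polynomial is homogeneous. -/
lemma isHomogeneous_of_mul {p q : MvPolynomial (Fin 2) K} {k e : ℕ} (hp : p.IsHomogeneous k)
    (hp0 : p ≠ 0) (hpq : (p * q).IsHomogeneous (k + e)) : q.IsHomogeneous e := by
  classical
  have h1 : p * q = p * homogeneousComponent e q := by
    have h2 : homogeneousComponent (k + e) (p * q) = p * q :=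
      homogeneousComponent_eq_self hpq
    rw [← h2]
    conv_lhs => rw [← sum_homogeneousComponent q, Finset.mul_sum, map_sum]
    have h3 : ∀ i ∈ Finset.range (q.totalDegree + 1),
        homogeneousComponent (k + e) (p * homogeneousComponent i q) =
          if i = e then p * homogeneousComponent e q else 0 := by
      intro i _
      rw [homogeneousComponent_of_mem (m := k + e) (n := k + i)
        ((mem_homogeneousSubmodule _ _).mpr (hp.mul (homogeneousComponent_isHomogeneous i q)))]
      by_cases hi : i = e
      · simp [hi]
      · rw [if_neg hi, if_neg (by omega)]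
    rw [Finset.sum_congr rfl h3, Finset.sum_ite_eq']
    split_ifs with hmem
    · rfl
    · rw [homogeneousComponent_eq_zero, mul_zero]
      simpa using hmem
  have h4 := mul_left_cancel₀ hp0 h1
  rw [h4]
  exact homogeneousComponent_isHomogeneous e q

/-- A linear form `x + c y` divides a homogeneous polynomial vanishing at `(-c, 1)`. -/
lemma dvd_of_eval_zero (c : K) (F : MvPolynomial (Fin 2) K) (e : ℕ) (hF : F.IsHomogeneous e)
    (h : eval ![-c, 1] F = 0) : (X 0 + C c * X 1) ∣ F := by
  by_cases hF0 : F = 0
  · simp [hF0]
  set p : Polynomial K := aeval ![Polynomial.X, 1] F with hp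
  have hFp : p.homogenize e = F := Polynomial.homogenize_eq_of_isHomogeneous hF rfl
  have hp0 : p ≠ 0 := by
    intro h0
    rw [h0, Polynomial.homogenize_zero] at hFp
    exact hF0 hFp.symm
  have hpd : p.natDegree ≤ e := by
    have := aeval_natDegree_le (m := e) (n := 1) F hF.totalDegree_le ![Polynomial.X, 1] (by
      intro i
      fin_cases i
      · simp
      · simp)
    simpa using this
  have hroot : p.IsRoot (-c) := by
    rw [Polynomial.IsRoot.def]
    have h2 : p.eval (-c) = eval ![-c, 1] F := by
      have h3 : (Polynomial.evalRingHom (-c)).comp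
          ((aeval ![Polynomial.X, (1 : Polynomial K)] :
            MvPolynomial (Fin 2) K →ₐ[K] Polynomial K) : MvPolynomial (Fin 2) K →+* Polynomial K)
          = (eval ![-c, 1] : MvPolynomial (Fin 2) K →+* K) := by
        apply MvPolynomial.ringHom_ext
        · intro r
          simp
        · intro i
          fin_cases i
          · simp
          · simp
      exact congrArg (fun φ : MvPolynomial (Fin 2) K →+* K => φ F) h3
    rw [h2, h]
  obtain ⟨r, hr⟩ := Polynomial.dvd_iff_isRoot.mpr hroot
  have hr0 : r ≠ 0 := by
    rintro rfl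
    exact hp0 (by rw [hr, mul_zero])
  have hnd : p.natDegree = 1 + r.natDegree := by
    rw [hr, Polynomial.natDegree_mul (Polynomial.X_sub_C_ne_zero _) hr0,
      Polynomial.natDegree_X_sub_C]
  obtain ⟨e', rfl⟩ : ∃ e', e = 1 + e' := ⟨e - 1, by omega⟩
  rw [← hFp, hr, Polynomial.homogenize_mul _ _ (by rw [Polynomial.natDegree_X_sub_C]) (by omega)]
  have hlin : (Polynomial.X - Polynomial.C (-c)).homogenize 1 =
      (X 0 + C c * X 1 : MvPolynomial (Fin 2) K) := by
    rw [Polynomial.homogenize_sub, Polynomial.homogenize_X one_ne_zero, Polynomial.homogenize_C]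
    simp
  rw [hlin]
  exact dvd_mul_right _ _

end Pool.Agent.Lib.MP_84e76d_ag
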