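import Mathlib
import Pool.Agent.Lib.MP_84e76d_ag.Saito

namespace Pool.Agent.Lib.MP_84e76d_ag

open MvPolynomial

variable {K : Type*} [Field K]

lemma linForm_ne_zero (c : K) : (X 0 + C c * X 1 : MvPolynomial (Fin 2) K) ≠ 0 := by
  intro h0
  have := congrArg (eval ![(1 : K), 0]) h0
  simp at this

lemma linForm_isHomogeneous (c : K) :
    (X 0 + C c * X 1 : MvPolynomial (Fin 2) K).IsHomogeneous 1 :=
  (isHomogeneous_X _ _).add (isHomogeneous_C_mul_X c 1)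

/-- Transfer of homogeneity to the quotient by a power of a linear form. -/
lemma quot_homogeneous (c : K) (k d : ℕ) (φ : MvPolynomial (Fin 2) K)
    (h : ((X 0 + C c * X 1) ^ k * φ).IsHomogeneous d) (hφ : φ ≠ 0) :
    k ≤ d ∧ φ.IsHomogeneous (d - k) := by
  have hα := linForm_ne_zero c
  have hαk : (X 0 + C c * X 1 : MvPolynomial (Fin 2) K) ^ k ≠ 0 := pow_ne_zero _ hα
  have hαh : ((X 0 + C c * X 1 : MvPolynomial (Fin 2) K) ^ k).IsHomogeneous k := by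
    simpa using (linForm_isHomogeneous c).pow k
  have htd := h.totalDegree (mul_ne_zero hαk hφ)
  rw [totalDegree_mul_of_isDomain hαk hφ, hαh.totalDegree hαk] at htd
  have hk : k ≤ d := by omega
  refine ⟨hk, isHomogeneous_of_mul hαh hαk ?_⟩
  rw [show k + (d - k) = d by omega]
  exact h

/-- One step: raising the multiplicity of the line `x + c y` by one. -/
lemma step (c : K) (k d1 d2 : ℕ) (hd : d1 ≤ d2) (f1 g1 f2 g2 : MvPolynomial (Fin 2) K)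
    (hf1 : f1.IsHomogeneous d1) (hg1 : g1.IsHomogeneous d1)
    (hf2 : f2.IsHomogeneous d2) (hg2 : g2.IsHomogeneous d2)
    (h1 : (X 0 + C c * X 1) ^ k ∣ f1 + C c * g1) (h2 : (X 0 + C c * X 1) ^ k ∣ f2 + C c * g2) :
    ∃ (A B A' B' : MvPolynomial (Fin 2) K) (e1 e2 : ℕ),
      A * B' - B * A' = X 0 + C c * X 1 ∧
      (A * f1 + B * f2).IsHomogeneous e1 ∧ (A * g1 + B * g2).IsHomogeneous e1 ∧
      (A' * f1 + B' * f2).IsHomogeneous e2 ∧ (A' * g1 + B' * g2).IsHomogeneous e2 ∧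
      (X 0 + C c * X 1) ^ (k + 1) ∣ (A * f1 + B * f2) + C c * (A * g1 + B * g2) ∧
      (X 0 + C c * X 1) ^ (k + 1) ∣ (A' * f1 + B' * f2) + C c * (A' * g1 + B' * g2) := by
  classical
  set α : MvPolynomial (Fin 2) K := X 0 + C c * X 1 with hα
  have hαh : α.IsHomogeneous 1 := linForm_isHomogeneous c
  obtain ⟨φ1, hφ1⟩ := h1
  obtain ⟨φ2, hφ2⟩ := h2
  have hh1 : (α ^ k * φ1).IsHomogeneous d1 := by
    rw [← hφ1]
    exact hf1.add (hg1.C_mul c)
  have hh2 : (α ^ k * φ2).IsHomogeneous d2 := by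
    rw [← hφ2]
    exact hf2.add (hg2.C_mul c)
  by_cases hc1 : eval ![-c, 1] φ1 = 0
  · -- `θ₁` already has the higher multiplicity
    have hdvd : α ∣ φ1 := by
      by_cases h0 : φ1 = 0
      · rw [h0]; exact dvd_zero _
      · exact dvd_of_eval_zero c φ1 _ (quot_homogeneous c k d1 φ1 hh1 h0).2 hc1
    refine ⟨1, 0, 0, α, d1, 1 + d2, by ring, by simpa using hf1, by simpa using hg1,
      by simpa using hαh.mul hf2, by simpa using hαh.mul hg2, ?_, ?_⟩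
    · have : (1 * f1 + 0 * f2) + C c * (1 * g1 + 0 * g2) = α ^ k * φ1 := by
        rw [← hφ1]; ring
      rw [this, pow_succ]
      exact mul_dvd_mul_left _ hdvd
    · have : (0 * f1 + α * f2) + C c * (0 * g1 + α * g2) = α * (α ^ k * φ2) := by
        rw [← hφ2]; ring
      rw [this, pow_succ']
      exact mul_dvd_mul_left _ (dvd_mul_right _ _)
  · have hφ10 : φ1 ≠ 0 := by
      rintro rfl
      exact hc1 (map_zero _)
    obtain ⟨hk, hφ1h⟩ := quot_homogeneous c k d1 φ1 hh1 hφ10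
    set r : MvPolynomial (Fin 2) K :=
      C (eval ![-c, 1] φ2 / eval ![-c, 1] φ1) * X 1 ^ (d2 - d1) with hr
    have hrh : r.IsHomogeneous (d2 - d1) := isHomogeneous_C_mul_X_pow _ _ _
    have hφ2h : φ2.IsHomogeneous (d2 - k) := by
      by_cases h0 : φ2 = 0
      · rw [h0]; exact isHomogeneous_zero _ _ _
      · exact (quot_homogeneous c k d2 φ2 hh2 h0).2
    have hdvd : α ∣ φ2 - r * φ1 := by
      apply dvd_of_eval_zero c _ (d2 - k)
      · apply hφ2h.sub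
        have := hrh.mul hφ1h
        rwa [show d2 - d1 + (d1 - k) = d2 - k by omega] at this
      · rw [map_sub, map_mul, hr, map_mul, eval_C, map_pow, eval_X]
        simp only [Matrix.cons_val_one, mul_one]
        field_simp
        simp
    refine ⟨α, 0, -r, 1, 1 + d1, d2, by ring, by simpa using hαh.mul hf1,
      by simpa using hαh.mul hg1, ?_, ?_, ?_, ?_⟩
    · rw [show -r * f1 + 1 * f2 = f2 - r * f1 by ring]
      apply hf2.sub
      have := hrh.mul hf1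
      rwa [show d2 - d1 + d1 = d2 by omega] at this
    · rw [show -r * g1 + 1 * g2 = g2 - r * g1 by ring]
      apply hg2.sub
      have := hrh.mul hg1
      rwa [show d2 - d1 + d1 = d2 by omega] at this
    · have : (α * f1 + 0 * f2) + C c * (α * g1 + 0 * g2) = α * (α ^ k * φ1) := by
        rw [← hφ1]; ring
      rw [this, pow_succ']
      exact mul_dvd_mul_left _ (dvd_mul_right _ _)
    · have : (-r * f1 + 1 * f2) + C c * (-r * g1 + 1 * g2) = α ^ k * (φ2 - r * φ1) := by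
        rw [mul_sub, ← hφ2, show α ^ k * (r * φ1) = r * (α ^ k * φ1) by ring, ← hφ1]; ring
      rw [this, pow_succ]
      exact mul_dvd_mul_left _ hdvd

/-- The product `x^m1 y^m2 (x-y)^m3 (x+y)^m4`. -/
noncomputable def Qpoly (K : Type*) [Field K] (m1 m2 m3 m4 : ℕ) : MvPolynomial (Fin 2) K :=
  X 0 ^ m1 * X 1 ^ m2 * (X 0 - X 1) ^ m3 * (X 0 + X 1) ^ m4

/-- Saito data. -/
def SaitoData (K : Type*) [Field K] (m1 m2 m3 m4 : ℕ) : Prop :=
  ∃ (f1 g1 f2 g2 : MvPolynomial (Fin 2) K) (d1 d2 : ℕ) (κ : K), κ ≠ 0 ∧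
    f1.IsHomogeneous d1 ∧ g1.IsHomogeneous d1 ∧ f2.IsHomogeneous d2 ∧ g2.IsHomogeneous d2 ∧
    InD m1 m2 m3 m4 f1 g1 ∧ InD m1 m2 m3 m4 f2 g2 ∧
    f1 * g2 - g1 * f2 = C κ * Qpoly K m1 m2 m3 m4

lemma InD.comb {m1 m2 m3 m4 : ℕ} {f g f' g' : MvPolynomial (Fin 2) K}
    (h : InD m1 m2 m3 m4 f g) (h' : InD m1 m2 m3 m4 f' g') (a b : MvPolynomial (Fin 2) K) :
    InD m1 m2 m3 m4 (a * f + b * f') (a * g + b * g') :=
  (h.mul a).add (h'.mul b)

lemma saito_swap {m1 m2 m3 m4 : ℕ} (h : SaitoData K m1 m2 m3 m4) :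
    ∃ (f1 g1 f2 g2 : MvPolynomial (Fin 2) K) (d1 d2 : ℕ) (κ : K), κ ≠ 0 ∧ d1 ≤ d2 ∧
    f1.IsHomogeneous d1 ∧ g1.IsHomogeneous d1 ∧ f2.IsHomogeneous d2 ∧ g2.IsHomogeneous d2 ∧
    InD m1 m2 m3 m4 f1 g1 ∧ InD m1 m2 m3 m4 f2 g2 ∧
    f1 * g2 - g1 * f2 = C κ * Qpoly K m1 m2 m3 m4 := by
  obtain ⟨f1, g1, f2, g2, d1, d2, κ, hκ, a, b, c, d, e, f, h⟩ := h
  by_cases hd : d1 ≤ d2
  · exact ⟨f1, g1, f2, g2, d1, d2, κ, hκ, hd, a, b, c, d, e, f, h⟩
  · refine ⟨f2, g2, f1, g1, d2, d1, -κ, neg_ne_zero.mpr hκ, by omega, c, d, a, b, f, e, ?_⟩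
    rw [C_neg, neg_mul, ← h]
    ring

lemma saito_base (m1 m2 : ℕ) : SaitoData K m1 m2 0 0 := by
  refine ⟨X 0 ^ m1, 0, 0, X 1 ^ m2, m1, m2, 1, one_ne_zero, isHomogeneous_X_pow _ _,
    isHomogeneous_zero _ _ _, isHomogeneous_zero _ _ _, isHomogeneous_X_pow _ _, ?_, ?_, ?_⟩
  · exact ⟨dvd_rfl, dvd_zero _, by simp, by simp⟩
  · exact ⟨dvd_zero _, dvd_rfl, by simp, by simp⟩
  · simp [Qpoly]

lemma saito_step3 (m1 m2 m3 m4 : ℕ) (h : SaitoData K m1 m2 m3 m4) :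
    SaitoData K m1 m2 (m3 + 1) m4 := by
  obtain ⟨f1, g1, f2, g2, d1, d2, κ, hκ, hd, hf1, hg1, hf2, hg2, i1, i2, hdet⟩ := saito_swap h
  have hα : (X 0 + C (-1 : K) * X 1 : MvPolynomial (Fin 2) K) = X 0 - X 1 := by
    rw [C_neg, C_1]; ring
  have hα' : ∀ f g : MvPolynomial (Fin 2) K, f + C (-1 : K) * g = f - g := by
    intro f g
    rw [C_neg, C_1]; ring
  obtain ⟨A, B, A', B', e1, e2, hAB, k1, k2, k3, k4, v1, v2⟩ :=
    step (-1 : K) m3 d1 d2 hd f1 g1 f2 g2 hf1 hg1 hf2 hg2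
      (by rw [hα, hα']; exact i1.2.2.1) (by rw [hα, hα']; exact i2.2.2.1)
  rw [hα, hα'] at v1 v2
  rw [hα] at hAB
  have c1 := i1.comb i2 A B
  have c2 := i1.comb i2 A' B'
  refine ⟨_, _, _, _, e1, e2, κ, hκ, k1, k2, k3, k4, ⟨c1.1, c1.2.1, v1, c1.2.2.2⟩,
    ⟨c2.1, c2.2.1, v2, c2.2.2.2⟩, ?_⟩
  calc (A * f1 + B * f2) * (A' * g1 + B' * g2) - (A * g1 + B * g2) * (A' * f1 + B' * f2)
      = (A * B' - B * A') * (f1 * g2 - g1 * f2) := by ring
    _ = _ := by rw [hAB, hdet]; simp only [Qpoly]; ring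

lemma saito_step4 (m1 m2 m3 m4 : ℕ) (h : SaitoData K m1 m2 m3 m4) :
    SaitoData K m1 m2 m3 (m4 + 1) := by
  obtain ⟨f1, g1, f2, g2, d1, d2, κ, hκ, hd, hf1, hg1, hf2, hg2, i1, i2, hdet⟩ := saito_swap h
  have hα : (X 0 + C (1 : K) * X 1 : MvPolynomial (Fin 2) K) = X 0 + X 1 := by
    rw [C_1]; ring
  have hα' : ∀ f g : MvPolynomial (Fin 2) K, f + C (1 : K) * g = f + g := by
    intro f g
    rw [C_1]; ring
  obtain ⟨A, B, A', B', e1, e2, hAB, k1, k2, k3, k4, v1, v2⟩ :=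
    step (1 : K) m4 d1 d2 hd f1 g1 f2 g2 hf1 hg1 hf2 hg2
      (by rw [hα, hα']; exact i1.2.2.2) (by rw [hα, hα']; exact i2.2.2.2)
  rw [hα, hα'] at v1 v2
  rw [hα] at hAB
  have c1 := i1.comb i2 A B
  have c2 := i1.comb i2 A' B'
  refine ⟨_, _, _, _, e1, e2, κ, hκ, k1, k2, k3, k4, ⟨c1.1, c1.2.1, c1.2.2.1, v1⟩,
    ⟨c2.1, c2.2.1, c2.2.2.1, v2⟩, ?_⟩
  calc (A * f1 + B * f2) * (A' * g1 + B' * g2) - (A * g1 + B * g2) * (A' * f1 + B' * f2)
      = (A * B' - B * A') * (f1 * g2 - g1 * f2) := by ring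
    _ = _ := by rw [hAB, hdet]; simp only [Qpoly]; ring

/-- Saito data exist for every multiplicity. -/
theorem saito_exists (K : Type*) [Field K] (m1 m2 m3 m4 : ℕ) : SaitoData K m1 m2 m3 m4 := by
  have h3 : ∀ k, SaitoData K m1 m2 k 0 := by
    intro k
    induction k with
    | zero => exact saito_base m1 m2
    | succ k ih => exact saito_step3 m1 m2 k 0 ih
  induction m4 with
  | zero => exact h3 m3
  | succ k ih => exact saito_step4 m1 m2 m3 k ih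

end Pool.Agent.Lib.MP_84e76d_ag
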