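import Mathlib
import Pool.Agent.Lib.MP_84e76d_ag.Biv

namespace Pool.Agent.Lib.MP_84e76d_ag

open MvPolynomial

variable {K : Type*} [Field K]

lemma low_zero_even' [CharZero K] (m1 m2 m3 m4 d : ℕ) (hd : 2 * d + 2 ≤ m1 + m2 + m3 + m4)
    (b1 : 2 * m1 ≤ m1 + m2 + m3 + m4) (b2 : 2 * m2 ≤ m1 + m2 + m3 + m4)
    (b3 : 2 * m3 ≤ m1 + m2 + m3 + m4) (b4 : 2 * m4 ≤ m1 + m2 + m3 + m4)
    (h1 : 0 < m1) (h2 : 0 < m2) (h3 : 0 < m3) (h4 : 0 < m4)
    (heven : (m1 + m2 + m3 + m4) % 2 = 0)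
    (hmod : (m1 + m2) % 4 ≠ (m3 + m4) % 4)
    (f g : MvPolynomial (Fin 2) K) (hf : f.IsHomogeneous d) (hg : g.IsHomogeneous d)
    (h : InD m1 m2 m3 m4 f g) : f = 0 ∧ g = 0 := by
  obtain ⟨e, he⟩ : ∃ e, 2 * (e + d) + 2 = m1 + m2 + m3 + m4 :=
    ⟨(m1 + m2 + m3 + m4) / 2 - 1 - d, by omega⟩
  have hX : (X 0 : MvPolynomial (Fin 2) K) ^ e ≠ 0 := pow_ne_zero _ (X_ne_zero 0)
  have key := low_zero_even (K := K) m1 m2 m3 m4 (e + d) he (by omega) (by omega) (by omega)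
    (by omega) h1 h2 h3 h4 (by rw [Nat.even_iff]; omega) (X 0 ^ e * f) (X 0 ^ e * g)
    ((isHomogeneous_X_pow 0 e).mul hf) ((isHomogeneous_X_pow 0 e).mul hg) (h.mul _)
  exact ⟨(mul_eq_zero.mp key.1).resolve_left hX, (mul_eq_zero.mp key.2).resolve_left hX⟩

/-- No nonzero logarithmic derivation of degree at most `|m|/2 - 1`. -/
theorem low_zero [CharZero K] (m1 m2 m3 m4 d : ℕ) (hd : 2 * d + 2 ≤ m1 + m2 + m3 + m4)
    (b1 : 2 * m1 ≤ m1 + m2 + m3 + m4) (b2 : 2 * m2 ≤ m1 + m2 + m3 + m4)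
    (b3 : 2 * m3 ≤ m1 + m2 + m3 + m4) (b4 : 2 * m4 ≤ m1 + m2 + m3 + m4)
    (h1 : 0 < m1) (h2 : 0 < m2) (h3 : 0 < m3) (h4 : 0 < m4)
    (hmod : (m1 + m2) % 4 ≠ (m3 + m4) % 4)
    (f g : MvPolynomial (Fin 2) K) (hf : f.IsHomogeneous d) (hg : g.IsHomogeneous d)
    (h : InD m1 m2 m3 m4 f g) : f = 0 ∧ g = 0 := by
  rcases Nat.mod_two_eq_zero_or_one (m1 + m2 + m3 + m4) with heven | hodd
  · exact low_zero_even' m1 m2 m3 m4 d hd b1 b2 b3 b4 h1 h2 h3 h4 heven hmod f g hf hg h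
  · by_cases hc : (m1 + 1 + m2) % 4 = (m3 + m4) % 4
    · -- raise the multiplicity of `x - y`
      have hX : (X 0 - X 1 : MvPolynomial (Fin 2) K) ≠ 0 := by
        intro h0
        have := congrArg (eval ![(1 : K), 0]) h0
        simp at this
      have key := low_zero_even' (K := K) m1 m2 (m3 + 1) m4 (1 + d) (by omega) (by omega)
        (by omega) (by omega) (by omega) h1 h2 (by omega) h4 (by omega) (by omega)
        ((X 0 - X 1) * f) ((X 0 - X 1) * g)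
        (((isHomogeneous_X _ _).sub (isHomogeneous_X _ _)).mul hf)
        (((isHomogeneous_X _ _).sub (isHomogeneous_X _ _)).mul hg)
        (by
          obtain ⟨hx, hy, hm, hp⟩ := h.mul (X 0 - X 1)
          refine ⟨hx, hy, ?_, hp⟩
          rw [← mul_sub, pow_succ']
          exact mul_dvd_mul_left _ h.2.2.1)
      exact ⟨(mul_eq_zero.mp key.1).resolve_left hX, (mul_eq_zero.mp key.2).resolve_left hX⟩
    · -- raise the multiplicity of `x`
      have hX : (X 0 : MvPolynomial (Fin 2) K) ≠ 0 := X_ne_zero 0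
      have key := low_zero_even' (K := K) (m1 + 1) m2 m3 m4 (1 + d) (by omega) (by omega)
        (by omega) (by omega) (by omega) (by omega) h2 h3 h4 (by omega) (by omega)
        ((X 0) * f) ((X 0) * g)
        ((isHomogeneous_X _ _).mul hf)
        ((isHomogeneous_X _ _).mul hg)
        (by
          obtain ⟨hx, hy, hm, hp⟩ := h.mul (X 0)
          refine ⟨?_, hy, hm, hp⟩
          rw [pow_succ']
          exact mul_dvd_mul_left _ h.1)
      exact ⟨(mul_eq_zero.mp key.1).resolve_left hX, (mul_eq_zero.mp key.2).resolve_left hX⟩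

end Pool.Agent.Lib.MP_84e76d_ag
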